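import Pool.Agent.Helper4.LinBk

/-!
# The class of linear lattices is not self-dual

A lattice is linear if it is isomorphic to a sublattice of the lattice `Eq(S)` of all equivalence
relations on a set `S`, any two elements of which commute. The lattice of normal subgroups of every
group is linear. There is a group of order `2 ^ 22` for which the dual of this lattice is not linear.
-/

set_option autoImplicit false

namespace Pool.Agent.Results.MP_34520e_al.NotSelfDual

open Pool.Agent.Helper4.Lin

/-- Two equivalence relations commute: `α ∘ β = β ∘ α`. -/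
def Commuting.{v} {S : Type v} (α β : Setoid S) : Prop :=
  Relation.Comp (fun x y => α x y) (fun x y => β x y) =
    Relation.Comp (fun x y => β x y) (fun x y => α x y)

/-- The lattice `L` is linear: it is isomorphic to a sublattice of `Eq(S)`, for some set `S`, whose
elements commute pairwise. -/
def Linear.{v, u} (L : Type u) [Lattice L] : Prop :=
  ∃ (S : Type v) (M : Sublattice (Setoid S)), (∀ α ∈ M, ∀ β ∈ M, Commuting α β) ∧
    Nonempty (L ≃o M)

/-- The lattice of the normal subgroups of a group. -/
def normalSubgroups.{u} (G : Type u) [Group G] : Sublattice (Subgroup G) where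
  carrier := {N | N.Normal}
  supClosed' := by
    intro N hN M hM
    have h1 : N.Normal := hN
    have h2 : M.Normal := hM
    exact (inferInstance : (N ⊔ M).Normal)
  infClosed' := by
    intro N hN M hM
    have h1 : N.Normal := hN
    have h2 : M.Normal := hM
    exact (inferInstance : (N ⊓ M).Normal)

theorem commuting_iff.{v} {S : Type v} (α β : Setoid S) : Commuting α β ↔
    ∀ x y : S, (∃ z, α.r x z ∧ β.r z y) ↔ (∃ z, β.r x z ∧ α.r z y) := by
  constructor
  · intro h x y
    exact iff_of_eq (congrFun (congrFun h x) y)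
  · intro h
    funext x y
    exact propext (h x y)

theorem le_iff_of_inj.{v, u} {L : Type u} [Lattice L] {S : Type v} (f : LatticeHom L (Setoid S))
    (hf : Function.Injective f) (a b : L) : f a ≤ f b ↔ a ≤ b := by
  rw [← inf_eq_left, ← map_inf, hf.eq_iff, inf_eq_left]

theorem linear_of_hom.{v, u} {L : Type u} [Lattice L]
    (h : ∃ (X : Type v) (f : LatticeHom L (Setoid X)), Function.Injective f ∧
      ∀ (a b : L) (x y : X),
        (∃ z, (f a).r x z ∧ (f b).r z y) ↔ (∃ z, (f b).r x z ∧ (f a).r z y)) :
    Linear.{v, u} L := by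
  obtain ⟨X, f, hf, hc⟩ := h
  refine ⟨X, Sublattice.LatticeHom.range f, ?_, ⟨?_⟩⟩
  · rintro _ ⟨a, rfl⟩ _ ⟨b, rfl⟩
    rw [commuting_iff]
    exact hc a b
  · exact
      { toEquiv := Equiv.ofInjective f hf
        map_rel_iff' := by
          intro a b
          exact le_iff_of_inj f hf a b }

theorem hom_of_linear.{v, u} {L : Type u} [Lattice L] (h : Linear.{v, u} L) :
    ∃ (X : Type v) (f : LatticeHom L (Setoid X)), Function.Injective f ∧
      ∀ (a b : L) (x y : X),
        (∃ z, (f a).r x z ∧ (f b).r z y) ↔ (∃ z, (f b).r x z ∧ (f a).r z y) := by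
  obtain ⟨X, M, hM, ⟨e⟩⟩ := h
  refine ⟨X, { toFun := fun a => (e a : Setoid X)
               map_sup' := fun a b => by rw [map_sup]; rfl
               map_inf' := fun a b => by rw [map_inf]; rfl }, ?_, ?_⟩
  · intro a b hab
    exact e.injective (Subtype.ext hab)
  · intro a b
    exact (commuting_iff _ _).mp (hM _ (e a).2 _ (e b).2)

/-- Linearity is invariant under isomorphisms. -/
theorem linear_congr.{v, u} {L L' : Type u} [Lattice L] [Lattice L'] (e : L ≃o L')
    (h : Linear.{v, u} L) : Linear.{v, u} L' := by
  obtain ⟨X, M, hM, ⟨e'⟩⟩ := h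
  exact ⟨X, M, hM, ⟨e.symm.trans e'⟩⟩

/-- The two forms of the lattice of normal subgroups. -/
def nlIso (G : Type) [Group G] : NL G ≃o normalSubgroups G where
  toFun N := ⟨N.1, N.2⟩
  invFun N := ⟨N.1, N.2⟩
  left_inv _ := rfl
  right_inv _ := rfl
  map_rel_iff' := Iff.rfl

/-- There is a finite group, of order `2 ^ 22`, such that the lattice of its normal subgroups is
linear but the dual of this lattice is not linear (for sets `S` in any universe). -/
theorem result.{v} : ∃ (G : Type) (_ : Group G), Nat.card G = 2 ^ 22 ∧
    Linear.{0, 0} (normalSubgroups G) ∧ ¬ Linear.{v, 0} (normalSubgroups G)ᵒᵈ := by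
  refine ⟨Gp β4, inferInstance, card_G, ?_, ?_⟩
  · exact linear_congr (nlIso (Gp β4)) (linear_of_hom linear_NL)
  · intro h
    obtain ⟨X, f, hf, hc⟩ := hom_of_linear (linear_congr (nlIso (Gp β4)).symm.dual h)
    exact no_rep X f hf hc

end Pool.Agent.Results.MP_34520e_al.NotSelfDual
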